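import Mathlib

/-!
# Halfspaces of the discrete cube are not uniformly bi-Lipschitz transitive

`ℤˣ = {1, -1}`, so that `Fin n → ℤˣ` is the cube `{-1, 1}^n`, and `hammingDist` is the Hamming
distance of Mathlib.
-/

set_option autoImplicit false

namespace Pool.Agent.Results.MP_ca8ef0_co.NotUniform

/-- The halfspace `{x ∈ {-1, 1}^n : a₀ + a₁ x₁ + ⋯ + aₙ xₙ ≥ 0}`. -/
def halfspace {n : ℕ} (a₀ : ℝ) (a : Fin n → ℝ) : Set (Fin n → ℤˣ) :=
  {x | 0 ≤ a₀ + ∑ i, a i * ((x i : ℤ) : ℝ)}

/-- `A ⊆ {-1, 1}^n` is `C`-bi-Lipschitz transitive: for all `x, y ∈ A` there is a bijection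
`f : A → A` with `f x = y`, `f y = x` and `1 / C ≤ d (f z, f w) / d (z, w) ≤ C` for all distinct
`z, w ∈ A`, where `d` is the Hamming distance of the cube. -/
def BiLipschitzTransitive {n : ℕ} (C : ℝ) (A : Set (Fin n → ℤˣ)) : Prop :=
  ∀ x y : A, ∃ f : A ≃ A, f x = y ∧ f y = x ∧ ∀ z w : A, z ≠ w →
    1 / C ≤ (hammingDist (f z : Fin n → ℤˣ) (f w) : ℝ) / (hammingDist (z : Fin n → ℤˣ) w : ℝ) ∧
    (hammingDist (f z : Fin n → ℤˣ) (f w) : ℝ) / (hammingDist (z : Fin n → ℤˣ) w : ℝ) ≤ C

/-- Weights: `L` light coordinates of weight `1` and `N` heavy coordinates of weight `L`. -/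
def wt (L N : ℕ) : Fin (L + N) → ℝ := Fin.append (fun _ => 1) (fun _ => (L : ℝ))

/-- The constant term. -/
def ct (L N : ℕ) : ℝ := L - N * L

/-- The all-ones point. -/
def top (L N : ℕ) : Fin (L + N) → ℤˣ := fun _ => 1

/-- The point whose light coordinates are all `-1`. -/
def low (L N : ℕ) : Fin (L + N) → ℤˣ := Fin.append (fun _ => -1) (fun _ => 1)

/-- The point whose only coordinate `-1` is the heavy coordinate `j`. -/
def one (L N : ℕ) (j : Fin N) : Fin (L + N) → ℤˣ :=
  Fin.append (fun _ => 1) (fun i => if i = j then -1 else 1)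

lemma val_le_one (u : ℤˣ) : ((u : ℤ) : ℝ) ≤ 1 := by
  rcases Int.units_eq_one_or u with h | h <;> simp [h]

lemma neg_one_le_val (u : ℤˣ) : -1 ≤ ((u : ℤ) : ℝ) := by
  rcases Int.units_eq_one_or u with h | h <;> simp [h]

lemma mem_iff (L N : ℕ) (x : Fin (L + N) → ℤˣ) :
    x ∈ halfspace (ct L N) (wt L N) ↔
      0 ≤ (L : ℝ) - N * L + (∑ i : Fin L, ((x (Fin.castAdd N i) : ℤ) : ℝ) +
        ∑ i : Fin N, (L : ℝ) * ((x (Fin.natAdd L i) : ℤ) : ℝ)) := by
  simp [halfspace, ct, wt, Fin.sum_univ_add]

lemma top_mem (L N : ℕ) : top L N ∈ halfspace (ct L N) (wt L N) := by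
  rw [mem_iff]
  simp [top]

lemma low_mem (L N : ℕ) : low L N ∈ halfspace (ct L N) (wt L N) := by
  rw [mem_iff]
  simp [low]

lemma one_mem (L N : ℕ) (j : Fin N) : one L N j ∈ halfspace (ct L N) (wt L N) := by
  rw [mem_iff]
  have h : ∀ i : Fin N, (L : ℝ) * ((one L N j (Fin.natAdd L i) : ℤ) : ℝ)
      = (L : ℝ) - (if i = j then 2 * (L : ℝ) else 0) := by
    intro i
    by_cases hij : i = j
    · simp [one, hij]; ring
    · simp [one, hij]
  simp only [h, Finset.sum_sub_distrib]
  simp [one]
  linarith

lemma dist_one (L N : ℕ) (j : Fin N) : hammingDist (one L N j) (top L N) ≤ 1 := by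
  unfold hammingDist
  rw [Finset.card_le_one]
  intro a ha b hb
  simp only [Finset.mem_filter, Finset.mem_univ, true_and] at ha hb
  have key : ∀ c : Fin (L + N), one L N j c ≠ top L N c → c = Fin.natAdd L j := by
    intro c
    refine Fin.addCases (fun i => ?_) (fun i => ?_) c
    · intro h; exact absurd (by simp [one, top]) h
    · intro h
      by_cases hij : i = j
      · rw [hij]
      · exact absurd (by simp [one, top, hij]) h
  rw [key a ha, key b hb]

/-- A point of the halfspace with a heavy coordinate `-1` is at distance at least `L + 1` from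
`low`. -/
lemma far (L N : ℕ) (z : Fin (L + N) → ℤˣ) (hz : z ∈ halfspace (ct L N) (wt L N)) (j : Fin N)
    (hj : z (Fin.natAdd L j) = -1) : L + 1 ≤ hammingDist z (low L N) := by
  rw [mem_iff] at hz
  have h2 : ∑ i : Fin N, (L : ℝ) * ((z (Fin.natAdd L i) : ℤ) : ℝ) ≤ N * L - 2 * L := by
    have : ∀ i ∈ (Finset.univ : Finset (Fin N)), (L : ℝ) * ((z (Fin.natAdd L i) : ℤ) : ℝ)
        ≤ (L : ℝ) - (if i = j then 2 * (L : ℝ) else 0) := by
      intro i _
      by_cases hij : i = j
      · subst hij; simp [hj]; linarith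
      · simp only [hij, if_false, sub_zero]
        have := val_le_one (z (Fin.natAdd L i))
        have hL : (0 : ℝ) ≤ L := by positivity
        nlinarith
    refine (Finset.sum_le_sum this).trans ?_
    simp [Finset.sum_sub_distrib]
  have h1 : ∀ i : Fin L, z (Fin.castAdd N i) = 1 := by
    intro i
    rcases Int.units_eq_one_or (z (Fin.castAdd N i)) with h | h
    · exact h
    · exfalso
      have : ∑ k : Fin L, ((z (Fin.castAdd N k) : ℤ) : ℝ) ≤ L - 2 := by
        have : ∀ k ∈ (Finset.univ : Finset (Fin L)), ((z (Fin.castAdd N k) : ℤ) : ℝ)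
            ≤ 1 - (if k = i then (2 : ℝ) else 0) := by
          intro k _
          by_cases hki : k = i
          · subst hki; simp [h]; norm_num
          · simp only [hki, if_false, sub_zero]; exact val_le_one _
        refine (Finset.sum_le_sum this).trans ?_
        simp [Finset.sum_sub_distrib]
      linarith
  have hsub : (Finset.univ.image (Fin.castAdd N : Fin L → Fin (L + N))) ∪ {Fin.natAdd L j} ⊆
      Finset.univ.filter (fun c => z c ≠ low L N c) := by
    intro c hc
    simp only [Finset.mem_union, Finset.mem_image, Finset.mem_univ, true_and,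
      Finset.mem_singleton] at hc
    simp only [Finset.mem_filter, Finset.mem_univ, true_and]
    rcases hc with ⟨i, rfl⟩ | rfl
    · rw [h1 i]; simp only [low, Fin.append_left]; decide
    · rw [hj]; simp only [low, Fin.append_right]; decide
  have hcard : ((Finset.univ.image (Fin.castAdd N : Fin L → Fin (L + N))) ∪
      {Fin.natAdd L j}).card = L + 1 := by
    rw [Finset.card_union_of_disjoint, Finset.card_image_of_injective _ (Fin.castAdd_injective L N)]
    · simp
    · rw [Finset.disjoint_singleton_right]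
      simp only [Finset.mem_image, Finset.mem_univ, true_and, not_exists]
      intro i hi
      have := congrArg Fin.val hi
      simp at this
      omega
  rw [← hcard]
  exact Finset.card_le_card hsub

/-- There is no constant `C` such that every halfspace of every cube `{-1, 1}^n` is
`C`-bi-Lipschitz transitive. -/
theorem result :
    ¬ ∃ C : ℝ, ∀ (n : ℕ) (a₀ : ℝ) (a : Fin n → ℝ), BiLipschitzTransitive C (halfspace a₀ a) := by
  rintro ⟨C, hC⟩
  obtain ⟨L, hL⟩ := exists_nat_gt C
  set N : ℕ := 2 ^ L + 1 with hN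
  obtain ⟨f, hf, -, hlip⟩ := hC (L + N) (ct L N) (wt L N) ⟨top L N, top_mem L N⟩
    ⟨low L N, low_mem L N⟩
  -- images of the points `one j` have all heavy coordinates `1`
  have key : ∀ (j : Fin N) (i : Fin N),
      (f ⟨one L N j, one_mem L N j⟩ : Fin (L + N) → ℤˣ) (Fin.natAdd L i) = 1 := by
    intro j i
    rcases Int.units_eq_one_or
      ((f ⟨one L N j, one_mem L N j⟩ : Fin (L + N) → ℤˣ) (Fin.natAdd L i)) with h | h
    · exact h
    · exfalso
      have h1 := far L N _ (f ⟨one L N j, one_mem L N j⟩).2 i h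
      have hne : (⟨one L N j, one_mem L N j⟩ : halfspace (ct L N) (wt L N)) ≠
          ⟨top L N, top_mem L N⟩ := by
        intro he
        have h3 := congrFun (congrArg Subtype.val he) (Fin.natAdd L j)
        simp [one, top] at h3
      have h2 := (hlip _ _ hne).2
      rw [hf] at h2
      have hd : hammingDist (one L N j) (top L N) = 1 := by
        have h4 := dist_one L N j
        have h5 : 0 < hammingDist (one L N j) (top L N) := by
          rw [hammingDist_pos]
          intro he
          exact hne (Subtype.ext he)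
        omega
      simp only [hd, Nat.cast_one, div_one] at h2
      have h6 : ((L + 1 : ℕ) : ℝ) ≤ C := le_trans (by exact_mod_cast h1) h2
      push_cast at h6
      linarith
  -- injection of `Fin N` into `Fin L → ℤˣ`
  let g : Fin N → (Fin L → ℤˣ) := fun j i =>
    (f ⟨one L N j, one_mem L N j⟩ : Fin (L + N) → ℤˣ) (Fin.castAdd N i)
  have ginj : Function.Injective g := by
    intro j k hjk
    have h1 : f ⟨one L N j, one_mem L N j⟩ = f ⟨one L N k, one_mem L N k⟩ := by
      apply Subtype.ext
      funext c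
      refine Fin.addCases (fun i => ?_) (fun i => ?_) c
      · exact congrFun hjk i
      · rw [key j i, key k i]
    have h2 := congrArg Subtype.val (f.injective h1)
    have h3 := congrFun h2 (Fin.natAdd L j)
    by_contra hne
    simp [one, hne] at h3
  have hcard := Fintype.card_le_of_injective g ginj
  simp [hN] at hcard

end Pool.Agent.Results.MP_ca8ef0_co.NotUniform
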